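import Mathlib

/-!
# The curve `y² + A y = x³` over a field with a primitive cube root of unity
-/

set_option autoImplicit false
set_option linter.unusedSectionVars false
set_option linter.unusedVariables false

namespace Pool.Agent.H462.KX.Ell

open WeierstrassCurve

open scoped Classical

variable {F : Type*} [Field F]

/-- the curve `y² + A y = x³` -/
structure IsA (V : WeierstrassCurve F) (A : F) : Prop where
  h1 : V.a₁ = 0
  h2 : V.a₂ = 0
  h3 : V.a₃ = A
  h4 : V.a₄ = 0
  h6 : V.a₆ = 0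
  ne : A ≠ 0

variable {V : WeierstrassCurve F} {A : F} (hV : IsA V A)

include hV

lemma IsA.eqn (x y : F) : V.toAffine.Equation x y ↔ y ^ 2 + A * y = x ^ 3 := by
  rw [Affine.equation_iff]
  show y ^ 2 + V.a₁ * x * y + V.a₃ * y = x ^ 3 + V.a₂ * x ^ 2 + V.a₄ * x + V.a₆ ↔ _
  rw [hV.h1, hV.h2, hV.h3, hV.h4, hV.h6]
  constructor
  · intro h; linear_combination h
  · intro h; linear_combination h

lemma IsA.negY (x y : F) : V.toAffine.negY x y = -y - A := by
  show -y - V.a₁ * x - V.a₃ = -y - A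
  rw [hV.h1, hV.h3]
  ring

variable [CharZero F]

lemma IsA.nons {x y : F} (he : y ^ 2 + A * y = x ^ 3) : V.toAffine.Nonsingular x y := by
  rw [Affine.nonsingular_iff]
  refine ⟨(hV.eqn x y).2 he, ?_⟩
  by_cases hy : 2 * y + A = 0
  · left
    show V.a₁ * y ≠ 3 * x ^ 2 + 2 * V.a₂ * x + V.a₄
    rw [hV.h1, hV.h2, hV.h4]
    intro h3
    have h4 : x ^ 2 = 0 := by
      have h5 : (3 : F) * x ^ 2 = 0 := by linear_combination -h3
      exact (mul_eq_zero.1 h5).resolve_left three_ne_zero
    have hx : x = 0 := pow_eq_zero_iff two_ne_zero |>.1 h4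
    subst hx
    have h5 : A ^ 2 = 0 := by linear_combination -4 * he + (2 * y + A) * hy
    exact hV.ne (pow_eq_zero_iff two_ne_zero |>.1 h5)
  · right
    show y ≠ -y - V.a₁ * x - V.a₃
    rw [hV.h1, hV.h3]
    intro h5
    apply hy
    linear_combination h5

/-- the addition law -/
lemma IsA.add_ex {x1 y1 x2 y2 : F} (h1 : V.toAffine.Nonsingular x1 y1)
    (h2 : V.toAffine.Nonsingular x2 y2) (hxy : ¬ (x1 = x2 ∧ y1 = -y2 - A)) :
    ∃ (ℓ X Y : F) (h : V.toAffine.Nonsingular X Y),
      (Affine.Point.some x1 y1 h1 : V.toAffine.Point) + .some x2 y2 h2 = .some X Y h ∧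
      X = ℓ ^ 2 - x1 - x2 ∧ Y = -(ℓ * (X - x1) + y1) - A ∧
      ((x1 ≠ x2 ∧ ℓ * (x1 - x2) = y1 - y2) ∨
        (x1 = x2 ∧ y1 = y2 ∧ 2 * y1 + A ≠ 0 ∧ ℓ * (2 * y1 + A) = 3 * x1 ^ 2)) := by
  have hxy' : ¬ (x1 = x2 ∧ y1 = V.toAffine.negY x2 y2) := by rwa [hV.negY]
  refine ⟨V.toAffine.slope x1 x2 y1 y2, _, _, _, Affine.Point.add_some hxy', ?_, ?_, ?_⟩
  · show _ ^ 2 + V.a₁ * _ - V.a₂ - x1 - x2 = _
    rw [hV.h1, hV.h2]
    ring
  · show -(_ * (_ ^ 2 + V.a₁ * _ - V.a₂ - x1 - x2 - x1) + y1) - V.a₁ * _ - V.a₃ =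
      -(_ * ((_ ^ 2 + V.a₁ * _ - V.a₂ - x1 - x2) - x1) + y1) - A
    rw [hV.h1, hV.h3]
    ring
  · by_cases hx : x1 = x2
    · right
      subst hx
      have hy : y1 ≠ -y2 - A := fun h => hxy ⟨rfl, h⟩
      have e1 := (hV.eqn _ _).1 h1.1
      have e2 := (hV.eqn _ _).1 h2.1
      have e3 : (y1 - y2) * (y1 + y2 + A) = 0 := by linear_combination e1 - e2
      have e4 : y1 + y2 + A ≠ 0 := fun h => hy (by linear_combination h)
      have e5 : y1 = y2 := by
        have := (mul_eq_zero.1 e3).resolve_right e4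
        linear_combination this
      subst e5
      have e6 : 2 * y1 + A ≠ 0 := by
        intro h
        apply e4
        linear_combination h
      refine ⟨rfl, rfl, e6, ?_⟩
      have hY : y1 ≠ V.toAffine.negY x1 y1 := by rwa [hV.negY]
      rw [Affine.slope_of_Y_ne rfl hY, hV.negY]
      show (3 * x1 ^ 2 + 2 * V.a₂ * x1 + V.a₄ - V.a₁ * y1) / (y1 - (-y1 - A)) * (2 * y1 + A) = _
      rw [hV.h1, hV.h2, hV.h4]
      have e7 : y1 - (-y1 - A) ≠ 0 := by
        intro h
        apply e4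
        linear_combination h
      rw [div_mul_eq_mul_div, div_eq_iff e7]
      ring
    · left
      refine ⟨hx, ?_⟩
      rw [Affine.slope_of_X_ne hx, div_mul_cancel₀ _ (sub_ne_zero.2 hx)]

/-- opposite points -/
lemma IsA.add_opp {x1 y1 x2 y2 : F} (h1 : V.toAffine.Nonsingular x1 y1)
    (h2 : V.toAffine.Nonsingular x2 y2) (hxy : x1 = x2 ∧ y1 = -y2 - A) :
    (Affine.Point.some x1 y1 h1 : V.toAffine.Point) + .some x2 y2 h2 = 0 :=
  Affine.Point.add_of_Y_eq hxy.1 (by rw [hV.negY]; exact hxy.2)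

lemma IsA.neg_nons {x y : F} (h : V.toAffine.Nonsingular x y) :
    V.toAffine.Nonsingular x (-y - A) := by
  apply hV.nons
  have := (hV.eqn _ _).1 h.1
  linear_combination this

lemma IsA.neg_eq {x y : F} (h : V.toAffine.Nonsingular x y)
    (h' : V.toAffine.Nonsingular x (-y - A)) :
    -(Affine.Point.some x y h : V.toAffine.Point) = .some x (-y - A) h' := by
  rw [Affine.Point.neg_some]
  congr 1
  exact hV.negY x y

variable {I : F} (hI : I ^ 2 + I + 1 = 0)

include hI

lemma I_cube : I ^ 3 = 1 := by linear_combination (I - 1) * hI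

lemma I_ne : I ≠ 0 := by
  rintro rfl
  have : (1 : F) = 0 := by linear_combination hI
  exact one_ne_zero this

lemma one_sub_ne : 1 - I ≠ 0 := by
  intro h
  have h3 : (3 : F) = 0 := by linear_combination hI + (I + 2) * h
  exact three_ne_zero h3

lemma IsA.im_nons {x y : F} (h : V.toAffine.Nonsingular x y) :
    V.toAffine.Nonsingular (I * x) y := by
  apply hV.nons
  have := (hV.eqn _ _).1 h.1
  have h3 := I_cube hV hI
  rw [mul_pow, h3, one_mul]
  exact this

/-- multiplication by the root of unity, as a map -/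
def imf : V.toAffine.Point → V.toAffine.Point
  | 0 => 0
  | .some x y h => .some (I * x) y (hV.im_nons hI h)

lemma imf_some {x y : F} (h : V.toAffine.Nonsingular x y) :
    imf hV hI (.some x y h) = .some (I * x) y (hV.im_nons hI h) := rfl

lemma imf_add (P Q : V.toAffine.Point) :
    imf hV hI (P + Q) = imf hV hI P + imf hV hI Q := by
  have hI0 := I_ne hV hI
  have hI3 := I_cube hV hI
  rcases P with _ | ⟨x1, y1, h1⟩
  · show imf hV hI (0 + Q) = 0 + _
    rw [zero_add, zero_add]
  rcases Q with _ | ⟨x2, y2, h2⟩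
  · show imf hV hI (_ + 0) = _ + 0
    rw [add_zero, add_zero]
  by_cases hxy : x1 = x2 ∧ y1 = -y2 - A
  · rw [hV.add_opp h1 h2 hxy, imf_some, imf_some, hV.add_opp]
    · rfl
    · rw [hxy.1, hxy.2]
      exact ⟨rfl, rfl⟩
  · obtain ⟨ℓ, X, Y, h, e, eX, eY, hs⟩ := hV.add_ex h1 h2 hxy
    have hxy' : ¬ (I * x1 = I * x2 ∧ y1 = -y2 - A) := by
      rintro ⟨h3, h4⟩
      exact hxy ⟨mul_left_cancel₀ hI0 h3, h4⟩
    obtain ⟨m, X', Y', h', e', eX', eY', hs'⟩ :=
      hV.add_ex (hV.im_nons hI h1) (hV.im_nons hI h2) hxy'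
    have hm : m = I ^ 2 * ℓ := by
      rcases hs with ⟨g1, g2⟩ | ⟨g1, g2, g3, g4⟩
      · rcases hs' with ⟨g1', g2'⟩ | ⟨g1', -⟩
        · have h3 : (x1 - x2) * I ≠ 0 := mul_ne_zero (sub_ne_zero.2 g1) hI0
          apply mul_right_cancel₀ h3
          linear_combination g2' - g2 - ℓ * (x1 - x2) * hI3
        · exact absurd (mul_left_cancel₀ hI0 g1') g1
      · rcases hs' with ⟨g1', -⟩ | ⟨g1', g2', g3', g4'⟩
        · exact absurd (by rw [g1]) g1'
        · apply mul_right_cancel₀ g3
          linear_combination g4' - I ^ 2 * g4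
    rw [e, imf_some, imf_some, imf_some, e']
    have hX : I * X = X' := by
      rw [eX, eX', hm]
      linear_combination (-ℓ ^ 2 * I) * hI3
    have hY : Y = Y' := by
      rw [eY, eY', ← hX, hm]
      linear_combination (ℓ * (X - x1)) * hI3
    rw [Affine.Point.some.injEq]
    exact ⟨hX, hY⟩

/-- multiplication by the root of unity -/
def im : V.toAffine.Point →+ V.toAffine.Point where
  toFun := imf hV hI
  map_zero' := rfl
  map_add' := imf_add hV hI

lemma im_some {x y : F} (h : V.toAffine.Nonsingular x y) :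
    im hV hI (.some x y h) = .some (I * x) y (hV.im_nons hI h) := rfl

omit hI in
lemma T0_nons : V.toAffine.Nonsingular 0 0 := hV.nons (by ring)

omit hI in
/-- the point `(0, 0)` -/
def T0 : V.toAffine.Point := .some 0 0 (T0_nons hV)

omit hI in
lemma T0_neg : ∃ h : V.toAffine.Nonsingular 0 (-A), -T0 hV = .some 0 (-A) h := by
  have h : V.toAffine.Nonsingular 0 (-0 - A) := hV.neg_nons (T0_nons hV)
  have e := hV.neg_eq (T0_nons hV) h
  have h' : V.toAffine.Nonsingular 0 (-A) := hV.nons (by ring)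
  refine ⟨h', ?_⟩
  unfold T0
  rw [e, Affine.Point.some.injEq]
  exact ⟨rfl, by ring⟩

/-- the kernel of `1 - ω` -/
lemma ker_im {P : V.toAffine.Point} (h : P - im hV hI P = 0) :
    P = 0 ∨ P = T0 hV ∨ P = -T0 hV := by
  rcases P with _ | ⟨x, y, hn⟩
  · left
    rfl
  · right
    have h1 := sub_eq_zero.1 h
    rw [im_some, Affine.Point.some.injEq] at h1
    have h2 : (1 - I) * x = 0 := by linear_combination h1.1
    have hx : x = 0 := (mul_eq_zero.1 h2).resolve_left (one_sub_ne hV hI)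
    subst hx
    have h3 := (hV.eqn _ _).1 hn.1
    have hy : y * (y + A) = 0 := by linear_combination h3
    rcases mul_eq_zero.1 hy with hy | hy
    · left
      subst hy
      rfl
    · right
      obtain ⟨h', e⟩ := T0_neg hV
      rw [e, Affine.Point.some.injEq]
      exact ⟨rfl, by linear_combination hy⟩

/-- the sum of the conjugates -/
lemma im_im (P : V.toAffine.Point) : im hV hI (im hV hI P) = -P - im hV hI P := by
  have hI0 := I_ne hV hI
  have hI3 := I_cube hV hI
  have h1I := one_sub_ne hV hI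
  rcases P with _ | ⟨x, y, h⟩
  · show im hV hI (im hV hI 0) = -0 - im hV hI 0
    rw [map_zero, map_zero, neg_zero, sub_zero]
  have he := (hV.eqn _ _).1 h.1
  have key : (Affine.Point.some x y h : V.toAffine.Point) + im hV hI (.some x y h) =
      -(im hV hI (im hV hI (.some x y h))) := by
    rw [im_some, im_some, hV.neg_eq _ (hV.neg_nons (hV.im_nons hI (hV.im_nons hI h)))]
    by_cases hx : x = 0
    · subst hx
      have hy : y * (y + A) = 0 := by linear_combination he
      have hxy : ¬ ((0 : F) = I * 0 ∧ y = -y - A) := by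
        rintro ⟨-, h3⟩
        have h4 : A ^ 2 = 0 := by linear_combination -4 * hy + (2 * y + A) * h3
        exact hV.ne (pow_eq_zero_iff two_ne_zero |>.1 h4)
      obtain ⟨ℓ, X, Y, h', e, eX, eY, hs⟩ := hV.add_ex h (hV.im_nons hI h) hxy
      rw [e, Affine.Point.some.injEq]
      have hℓ : ℓ = 0 := by
        rcases hs with ⟨k1, -⟩ | ⟨-, -, k2, k3⟩
        · exact absurd (by ring) k1
        · have h5 : ℓ * (2 * y + A) = 0 := by rw [k3]; ring
          exact (mul_eq_zero.1 h5).resolve_right k2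
      rw [eY, eX, hℓ]
      exact ⟨by ring, by ring⟩
    · have hxI : x ≠ I * x := by
        intro h3
        have h4 : (1 - I) * x = 0 := by linear_combination h3
        exact mul_ne_zero h1I hx h4
      have hxy : ¬ (x = I * x ∧ y = -y - A) := fun h => hxI h.1
      obtain ⟨ℓ, X, Y, h', e, eX, eY, hs⟩ := hV.add_ex h (hV.im_nons hI h) hxy
      rw [e, Affine.Point.some.injEq]
      have hℓ : ℓ = 0 := by
        rcases hs with ⟨-, k1⟩ | ⟨k1, -⟩
        · have h5 : ℓ * (x - I * x) = 0 := by rw [k1]; ring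
          exact (mul_eq_zero.1 h5).resolve_right (sub_ne_zero.2 hxI)
        · exact absurd k1 hxI
      rw [eY, eX, hℓ]
      exact ⟨by linear_combination (-x) * hI, by ring⟩
  have h2 := congrArg (fun Q => -Q) key
  simp only [neg_neg] at h2
  rw [← h2]
  abel

end Pool.Agent.H462.KX.Ell
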