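import Pool.Agent.H462.T1.B
import Pool.Agent.H462.KX.Ell

/-!
# The rank of `y² + A y = x³` over a cubic Kummer extension
-/

set_option autoImplicit false
set_option linter.unusedSectionVars false

namespace Pool.Agent.H462.KX

open WeierstrassCurve Module Pool.Agent.Y710.CTE Pool.Agent.H462.T1 Pool.Agent.H462.KX.Ell
open scoped Classical Pointwise

lemma rank_prodZ {G0 G1 : Type} [AddCommGroup G0] [AddCommGroup G1] :
    Module.rank ℤ (G0 × G1) = Module.rank ℤ G0 + Module.rank ℤ G1 := by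
  rw [LinearMap.rank_eq_of_surjective (f := LinearMap.fst ℤ G0 G1) LinearMap.fst_surjective,
    LinearMap.ker_fst]
  congr 1
  exact (LinearEquiv.ofInjective (LinearMap.inr ℤ G0 G1) LinearMap.inr_injective).rank_eq.symm

/-- the rank of a group with a decomposition up to multiplication by three -/
theorem rank_eq_group {G G0 G1 G2 : Type} [AddCommGroup G] [AddCommGroup G0] [AddCommGroup G1]
    [AddCommGroup G2] [Module.Finite ℤ G0] [Module.Finite ℤ G1] [Module.Finite ℤ G2]
    (f0 : G0 →+ G) (f1 : G1 →+ G) (f2 : G2 →+ G)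
    (h : ∀ P : G, ∃ x y z, (3 : ℕ) • P = f0 x + f1 y + f2 z)
    (h3 : {P : G | (3 : ℕ) • P = 0}.Finite)
    (hk : ∀ x y z, f0 x + f1 y + f2 z = 0 → (3 : ℕ) • x = 0 ∧ (3 : ℕ) • y = 0 ∧ (3 : ℕ) • z = 0) :
    Module.Finite ℤ G ∧ finrank ℤ G = finrank ℤ G0 + finrank ℤ G1 + finrank ℤ G2 := by
  obtain ⟨hfg, hle⟩ := rank_group f0 f1 f2 h h3
  refine ⟨hfg, le_antisymm hle ?_⟩
  let φ : (G0 × G1 × G2) →ₗ[ℤ] G :=
    f0.toIntLinearMap.coprod (f1.toIntLinearMap.coprod f2.toIntLinearMap)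
  have hker : Module.rank ℤ (LinearMap.ker φ) = 0 := by
    rw [rank_eq_zero_iff]
    rintro ⟨⟨x, y, z⟩, hP⟩
    refine ⟨3, by norm_num, ?_⟩
    have h1 : f0 x + (f1 y + f2 z) = 0 := LinearMap.mem_ker.1 hP
    rw [← add_assoc] at h1
    obtain ⟨h2, h4, h5⟩ := hk x y z h1
    have e : ∀ {H : Type} [AddCommGroup H] {w : H}, (3 : ℕ) • w = 0 → (3 : ℤ) • w = 0 := by
      intro H _ w hw
      rw [← hw]
      norm_cast
    refine Subtype.ext (Prod.ext ?_ (Prod.ext ?_ ?_))
    · exact e h2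
    · exact e h4
    · exact e h5
  have h1 : Module.rank ℤ G0 + Module.rank ℤ G1 + Module.rank ℤ G2 ≤ Module.rank ℤ G := by
    rw [add_assoc, ← rank_prodZ, ← rank_prodZ, ← LinearMap.rank_range_add_rank_ker φ, hker, add_zero]
    exact Submodule.rank_le _
  have k := Module.rank_lt_aleph0 ℤ G
  have k0 := Module.rank_lt_aleph0 ℤ G0
  have k1 := Module.rank_lt_aleph0 ℤ G1
  have k2 := Module.rank_lt_aleph0 ℤ G2
  have h2 := Cardinal.toNat_le_toNat h1 k
  rwa [Cardinal.toNat_add (Cardinal.add_lt_aleph0 k0 k1) k2, Cardinal.toNat_add k0 k1] at h2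

variable {K F : Type} [Field K] [Field F] [CharZero K] [CharZero F] [Algebra K F]

/-- the homomorphism from the points of the twist -/
theorem exists_homA {A d : K} (hA : A ≠ 0) (hd : d ≠ 0) {u : F}
    (hu : u ^ 3 * algebraMap K F d = 1)
    {V : WeierstrassCurve F} (hV : V = Ed (algebraMap K F A)) :
    ∃ f : (Ed (A * d)).toAffine.Point →+ V.toAffine.Point, (∀ P, f P = 0 → P = 0) ∧
      ∀ X Y (hn : (Ed (A * d)).toAffine.Nonsingular X Y),
        ∃ h', f (.some X Y hn) = .some (u ^ 2 * algebraMap K F X) (u ^ 3 * algebraMap K F Y) h' := by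
  subst hV
  have hAd : A * d ≠ 0 := mul_ne_zero hA hd
  have e1 : Affine.baseChange (Ed (A * d)).toAffine K = Ed (A * d) := by
    ext <;> simp [Ed, Affine.baseChange]
  have e2 : Affine.baseChange (Ed (A * d)).toAffine F = Ed (algebraMap K F (A * d)) := by
    ext <;> simp [Ed, Affine.baseChange]
  have hu0 : u ≠ 0 := by
    rintro rfl
    simp at hu
  have hvr : Pool.Agent.Y700.VR (Ed (algebraMap K F A)) (Ed (algebraMap K F (A * d))) u 0 0 0 := by
    refine ⟨hu0, ?_, ?_, ?_, ?_, ?_⟩ <;> simp [Ed]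
    linear_combination algebraMap K F A * hu
  have hda : algebraMap K F (A * d) ≠ 0 := (map_ne_zero _).2 hAd
  have hex : ∃ m : (Affine.baseChange (Ed (A * d)).toAffine K).Point →+
      (Affine.baseChange (Ed (A * d)).toAffine F).Point,
      ∀ X Y (hn : (Affine.baseChange (Ed (A * d)).toAffine K).Nonsingular X Y),
        ∃ h', m (.some X Y hn) = .some (algebraMap K F X) (algebraMap K F Y) h' :=
    ⟨Affine.Point.map (W' := (Ed (A * d)).toAffine) (Algebra.ofId K F), fun X Y hn => ⟨_, rfl⟩⟩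
  rw [e1, e2] at hex
  obtain ⟨m, hm⟩ := hex
  have key : ∀ X Y (hn : (Ed (A * d)).toAffine.Nonsingular X Y),
      ∃ h', (hvr.equiv (Ed_delta hda)).toAddMonoidHom.comp m (.some X Y hn) =
        .some (u ^ 2 * algebraMap K F X) (u ^ 3 * algebraMap K F Y) h' := by
    intro X Y hn
    obtain ⟨h', e'⟩ := hm X Y hn
    have h3 : (hvr.equiv (Ed_delta hda)).toAddMonoidHom.comp m (.some X Y hn) =
        hvr.fn (Ed_delta hda) (m (.some X Y hn)) := rfl
    have h4 : (Ed (algebraMap K F A)).toAffine.Nonsingular (u ^ 2 * algebraMap K F X)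
        (u ^ 3 * algebraMap K F Y) := by
      apply Ed_nons ((map_ne_zero _).2 hA)
      have h5 : Y ^ 2 + A * d * Y = X ^ 3 := by
        have := (Affine.equation_iff _ _).1 hn.1
        simp only [Ed] at this
        linear_combination this
      have h6 := congrArg (algebraMap K F) h5
      simp only [map_add, map_mul, map_pow] at h6
      linear_combination u ^ 6 * h6 - u ^ 3 * algebraMap K F A * algebraMap K F Y * hu
    refine ⟨h4, ?_⟩
    rw [h3, e', Pool.Agent.Y700.VR.fn_some, Affine.Point.some.injEq]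
    constructor <;> ring
  refine ⟨(hvr.equiv (Ed_delta hda)).toAddMonoidHom.comp m, ?_, key⟩
  rintro (_ | ⟨X, Y, hn⟩) hP
  · rfl
  · exfalso
    obtain ⟨h', e'⟩ := key X Y hn
    have hP' : (hvr.equiv (Ed_delta hda)).toAddMonoidHom.comp m (.some X Y hn) = 0 := hP
    rw [e'] at hP'
    exact Affine.Point.some_ne_zero _ hP'

/-- **the rank over the cubic extension** -/
theorem rank_pointsA (h3 : finrank K F = 3) (I : K)
    (hI : I ^ 2 + I + 1 = 0) (B : K) (hB : B ≠ 0) (a : K) (ha : a ≠ 0) (t : F)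
    (ht : t ^ 3 = algebraMap K F a)
    (hnc : ∀ b : K, b ^ 3 ≠ a) (f0 : Module.Finite ℤ (Ed B).toAffine.Point)
    (f1 : Module.Finite ℤ (Ed (B * a)).toAffine.Point)
    (f2 : Module.Finite ℤ (Ed (B * a ^ 2)).toAffine.Point) :
    Module.Finite ℤ (Ed (algebraMap K F B)).toAffine.Point ∧
    finrank ℤ (Ed (algebraMap K F B)).toAffine.Point = finrank ℤ (Ed B).toAffine.Point +
      finrank ℤ (Ed (B * a)).toAffine.Point + finrank ℤ (Ed (B * a ^ 2)).toAffine.Point := by
  obtain ⟨hbas, hind, σ, hσ⟩ := kummer h3 I hI a t ht hnc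
  obtain ⟨J, hJ⟩ : ∃ J : F, J = algebraMap K F I := ⟨_, rfl⟩
  obtain ⟨C, hC⟩ : ∃ C : F, C = algebraMap K F B := ⟨_, rfl⟩
  have hC0 : C ≠ 0 := by rw [hC]; exact (map_ne_zero _).2 hB
  have hJ2 : J ^ 2 + J + 1 = 0 := by
    rw [hJ, ← map_pow, ← map_one (algebraMap K F), ← map_add, ← map_add, hI, map_zero]
  rw [← hJ] at hσ
  have hσJ : σ J = J := by rw [hJ]; exact σ.commutes I
  have hJ3 : J ^ 3 = 1 := by linear_combination (J - 1) * hJ2
  have hI3 : I ^ 3 = 1 := by linear_combination (I - 1) * hI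
  have haF : algebraMap K F a ≠ 0 := (map_ne_zero _).2 ha
  have ht0 : t ≠ 0 := by
    intro h
    rw [h, zero_pow (by norm_num)] at ht
    exact haF ht.symm
  have hI1 : I - 1 ≠ 0 := by
    intro h
    have h3 : (3 : K) = 0 := by linear_combination hI - (I + 2) * h
    exact three_ne_zero h3
  -- the curve as a base change
  set V : WeierstrassCurve F := Affine.baseChange (Ed B).toAffine F with hV
  have hVE : V = Ed (algebraMap K F B) := by
    rw [hV]
    ext <;> simp [Ed, Affine.baseChange]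
  have hisE : IsA V C := by
    rw [hVE, ← hC]
    exact ⟨rfl, rfl, rfl, rfl, rfl, hC0⟩
  have e0 := exists_homA (K := K) (A := B) (d := 1) hB one_ne_zero (u := (1 : F)) (by simp) hVE
  rw [mul_one] at e0
  obtain ⟨g0, hg0i, hg0⟩ := e0
  obtain ⟨g1, hg1i, hg1⟩ := exists_homA (K := K) (A := B) (d := a) hB ha (u := t⁻¹)
    (by rw [inv_pow, ht]; exact inv_mul_cancel₀ haF) hVE
  obtain ⟨g2, hg2i, hg2⟩ := exists_homA (K := K) (A := B) (d := a ^ 2) hB (pow_ne_zero 2 ha)
    (u := (t ^ 2)⁻¹)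
    (by
      rw [inv_pow, ← pow_mul, show 2 * 3 = 3 * 2 by norm_num, pow_mul, ht, map_pow]
      exact inv_mul_cancel₀ (pow_ne_zero 2 haF)) hVE
  rw [← hVE]
  let s : V.toAffine.Point →+ V.toAffine.Point := Affine.Point.map (W' := (Ed B).toAffine) σ
  let A : V.toAffine.Point →+ V.toAffine.Point := im hisE hJ2
  have hs_some : ∀ x y (h : V.toAffine.Nonsingular x y), ∃ h' : V.toAffine.Nonsingular (σ x) (σ y),
      s (.some x y h) = .some (σ x) (σ y) h' := fun x y h => ⟨_, rfl⟩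
  have hA_some : ∀ x y (h : V.toAffine.Nonsingular x y), ∃ h' : V.toAffine.Nonsingular (J * x) y,
      A (.some x y h) = .some (J * x) y h' := fun x y h => ⟨_, rfl⟩
  have hσ3 : ∀ x, σ (σ (σ x)) = x := by
    have e1 : σ (σ (σ t)) = t := by
      rw [hσ, map_mul, hσJ, hσ, map_mul, map_mul, hσJ, hσ]
      linear_combination t * hJ3
    intro x
    obtain ⟨b0, b1, b2, rfl⟩ := hbas x
    simp only [map_add, map_mul, map_pow, AlgHom.commutes, e1]
  -- the eigenspaces
  have eig0 : ∀ x, σ x = x → ∃ b : K, x = algebraMap K F b := by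
    intro x hx
    obtain ⟨b0, b1, b2, rfl⟩ := hbas x
    simp only [map_add, map_mul, map_pow, AlgHom.commutes, hσ] at hx
    have h := hind 0 (b1 * (I - 1)) (b2 * (I ^ 2 - 1)) (by
      simp only [map_zero, map_mul, map_sub, map_pow, map_one, ← hJ]
      linear_combination hx)
    have e1 : b1 = 0 := (mul_eq_zero.1 h.2.1).resolve_right hI1
    have e2 : b2 = 0 := by
      refine (mul_eq_zero.1 h.2.2).resolve_right ?_
      intro h5
      apply hI1
      linear_combination hI3 - I * h5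
    refine ⟨b0, ?_⟩
    rw [e1, e2]
    simp
  have eig1 : ∀ x, σ x = J * x → ∃ b : K, x = algebraMap K F b * t := by
    intro x hx
    have h1 : σ (x * t ^ 2) = x * t ^ 2 := by
      rw [map_mul, map_pow, hx, hσ]
      linear_combination x * t ^ 2 * hJ3
    obtain ⟨b, hb⟩ := eig0 _ h1
    refine ⟨b / a, ?_⟩
    rw [map_div₀, ← hb, ← ht]
    field_simp
  have eig2 : ∀ x, σ x = J * (J * x) → ∃ b : K, x = algebraMap K F b * t ^ 2 := by
    intro x hx
    have h1 : σ (x * t) = x * t := by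
      rw [map_mul, hx, hσ]
      linear_combination x * t * hJ3
    obtain ⟨b, hb⟩ := eig0 _ h1
    refine ⟨b / a, ?_⟩
    rw [map_div₀, ← hb, ← ht]
    field_simp
  have heq : ∀ x y, V.toAffine.Nonsingular x y → y ^ 2 + C * y = x ^ 3 := fun x y h =>
    (hisE.eqn x y).1 h.1
  have hinjK : Function.Injective (algebraMap K F) := (algebraMap K F).injective
  have hA : ∀ P, A (A P) = -P - A P := im_im hisE hJ2
  have hs : ∀ P, s (s (s P)) = P := by
    rintro (_ | ⟨x, y, h⟩)
    · rfl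
    · obtain ⟨h1, e1⟩ := hs_some x y h
      obtain ⟨h2, e2⟩ := hs_some _ _ h1
      obtain ⟨h3, e3⟩ := hs_some _ _ h2
      rw [e1, e2, e3, Affine.Point.some.injEq]
      exact ⟨hσ3 x, hσ3 y⟩
  have hc : ∀ P, s (A P) = A (s P) := by
    rintro (_ | ⟨x, y, h⟩)
    · rfl
    · obtain ⟨h1, e1⟩ := hs_some x y h
      obtain ⟨h2, e2⟩ := hA_some x y h
      obtain ⟨h3, e3⟩ := hs_some _ _ h2
      obtain ⟨h4, e4⟩ := hA_some _ _ h1
      rw [e2, e3, e1, e4, Affine.Point.some.injEq]
      refine ⟨?_, rfl⟩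
      rw [map_mul, hσJ]
  have r0 : ∀ P, s P = P → ∃ x, g0 x = P := by
    rintro (_ | ⟨x, y, hn⟩) hP
    · exact ⟨0, map_zero g0⟩
    · obtain ⟨h1, e1⟩ := hs_some x y hn
      have hP' : s (.some x y hn) = .some x y hn := hP
      rw [e1, Affine.Point.some.injEq] at hP'
      obtain ⟨X, hX⟩ := eig0 x hP'.1
      obtain ⟨Y, hY⟩ := eig0 y hP'.2
      have h5 : Y ^ 2 + B * Y = X ^ 3 := by
        apply hinjK
        rw [map_add, map_pow, map_pow, map_mul, ← hX, ← hY, ← hC]
        exact heq x y hn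
      obtain ⟨h6, h7⟩ := hg0 X Y (Ed_nons hB h5)
      refine ⟨_, h7.trans ?_⟩
      rw [Affine.Point.some.injEq]
      exact ⟨by rw [hX]; ring, by rw [hY]; ring⟩
  have r1 : ∀ P, s P = A P → ∃ x, g1 x = P := by
    rintro (_ | ⟨x, y, hn⟩) hP
    · exact ⟨0, map_zero g1⟩
    · obtain ⟨h1, e1⟩ := hs_some x y hn
      obtain ⟨h2, e2⟩ := hA_some x y hn
      have hP' : s (.some x y hn) = A (.some x y hn) := hP
      rw [e1, e2, Affine.Point.some.injEq] at hP'
      obtain ⟨X, hX⟩ := eig1 x hP'.1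
      obtain ⟨Y, hY⟩ := eig0 y hP'.2
      have h5 : (Y * a) ^ 2 + B * a * (Y * a) = (X * a) ^ 3 := by
        have h5 := heq x y hn
        apply hinjK
        simp only [map_add, map_pow, map_mul]
        rw [hX, hY, hC] at h5
        linear_combination (algebraMap K F a) ^ 2 * h5 +
          (algebraMap K F X) ^ 3 * (algebraMap K F a) ^ 2 * ht
      obtain ⟨h6, h7⟩ := hg1 (X * a) (Y * a) (Ed_nons (mul_ne_zero hB ha) h5)
      refine ⟨_, h7.trans ?_⟩
      rw [Affine.Point.some.injEq]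
      constructor
      · rw [hX, map_mul, ← ht]
        field_simp
      · rw [hY, map_mul, ← ht]
        field_simp
  have r2 : ∀ P, s P = A (A P) → ∃ x, g2 x = P := by
    rintro (_ | ⟨x, y, hn⟩) hP
    · exact ⟨0, map_zero g2⟩
    · obtain ⟨h1, e1⟩ := hs_some x y hn
      obtain ⟨h2, e2⟩ := hA_some x y hn
      obtain ⟨h3, e3⟩ := hA_some _ _ h2
      have hP' : s (.some x y hn) = A (A (.some x y hn)) := hP
      rw [e1, e2, e3, Affine.Point.some.injEq] at hP'
      obtain ⟨X, hX⟩ := eig2 x hP'.1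
      obtain ⟨Y, hY⟩ := eig0 y hP'.2
      have h5 : (Y * a ^ 2) ^ 2 + B * a ^ 2 * (Y * a ^ 2) = (X * a ^ 2) ^ 3 := by
        have h5 := heq x y hn
        apply hinjK
        simp only [map_add, map_pow, map_mul]
        rw [hX, hY, hC] at h5
        linear_combination (algebraMap K F a) ^ 4 * h5 +
          (algebraMap K F X) ^ 3 * (algebraMap K F a) ^ 4 * (t ^ 3 + algebraMap K F a) * ht
      obtain ⟨h6, h7⟩ := hg2 (X * a ^ 2) (Y * a ^ 2) (Ed_nons (mul_ne_zero hB (pow_ne_zero 2 ha)) h5)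
      refine ⟨_, h7.trans ?_⟩
      rw [Affine.Point.some.injEq]
      constructor
      · rw [hX, map_mul, map_pow, ← ht]
        field_simp
      · rw [hY, map_mul, map_pow, ← ht]
        field_simp
  have hk : {P | P - A P = 0}.Finite := by
    refine Set.Finite.subset (s := {0, T0 hisE, -T0 hisE}) (by simp) ?_
    intro P hP
    have := ker_im hisE hJ2 (P := P) hP
    simpa using this
  have h3k : {P : V.toAffine.Point | (3 : ℕ) • P = 0}.Finite := by
    let B : V.toAffine.Point →+ V.toAffine.Point := AddMonoidHom.id _ - A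
    have hBB : ∀ P, B (B P) = -((3 : ℕ) • A P) := by
      intro P
      show (P - A P) - A (P - A P) = _
      rw [map_sub, hA]
      abel
    have hBk : {P | B P = 0}.Finite := hk
    refine (fin_pre B hBk (fin_pre B hBk (Set.finite_singleton 0))).subset ?_
    intro P hP
    show B (B P) = 0
    rw [hBB, ← map_nsmul, show (3 : ℕ) • P = 0 from hP, map_zero, neg_zero]
  have hJinv : J⁻¹ = J ^ 2 := by
    have hJ0 : J ≠ 0 := by
      rintro h
      rw [h] at hJ3
      norm_num at hJ3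
    field_simp
    linear_combination -hJ3
  -- the action on the images
  have s0 : ∀ x, s (g0 x) = g0 x := by
    rintro (_ | ⟨X, Y, hn⟩)
    · show s (g0 0) = g0 0
      rw [map_zero, map_zero]
    · obtain ⟨h1, e1⟩ := hg0 X Y hn
      obtain ⟨h2, e2⟩ := hs_some _ _ h1
      rw [e1, e2, Affine.Point.some.injEq]
      simp only [map_mul, map_pow, map_one, AlgHom.commutes, and_self]
  have s1 : ∀ x, s (g1 x) = A (g1 x) := by
    rintro (_ | ⟨X, Y, hn⟩)
    · show s (g1 0) = A (g1 0)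
      rw [map_zero, map_zero, map_zero]
    · obtain ⟨h1, e1⟩ := hg1 X Y hn
      obtain ⟨h2, e2⟩ := hs_some _ _ h1
      obtain ⟨h4, e4⟩ := hA_some _ _ h1
      rw [e1, e2, e4, Affine.Point.some.injEq]
      simp only [map_mul, map_pow, map_inv₀, AlgHom.commutes, hσ, mul_inv, hJinv]
      constructor
      · linear_combination (t⁻¹ ^ 2 * (algebraMap K F X) * J) * hJ3
      · linear_combination (t⁻¹ ^ 3 * (algebraMap K F Y) * (J ^ 3 + 1)) * hJ3
  have s2 : ∀ x, s (g2 x) = A (A (g2 x)) := by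
    rintro (_ | ⟨X, Y, hn⟩)
    · show s (g2 0) = A (A (g2 0))
      rw [map_zero, map_zero, map_zero, map_zero]
    · obtain ⟨h1, e1⟩ := hg2 X Y hn
      obtain ⟨h2, e2⟩ := hs_some _ _ h1
      obtain ⟨h4, e4⟩ := hA_some _ _ h1
      obtain ⟨h5, e5⟩ := hA_some _ _ h4
      rw [e1, e2, e4, e5, Affine.Point.some.injEq]
      have hσt : σ ((t ^ 2)⁻¹) = J ^ 4 * (t ^ 2)⁻¹ := by
        rw [map_inv₀, map_pow, hσ, mul_pow, mul_inv, ← inv_pow, hJinv]
        ring
      rw [map_mul, map_mul, map_pow, map_pow, AlgHom.commutes, AlgHom.commutes, hσt]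
      constructor
      · linear_combination ((t ^ 2)⁻¹ ^ 2 * (algebraMap K F X) * (J ^ 5 + J ^ 2)) * hJ3
      · linear_combination ((t ^ 2)⁻¹ ^ 3 * (algebraMap K F Y) * (J ^ 9 + J ^ 6 + J ^ 3 + 1)) * hJ3
  refine rank_eq_group g0 g1 g2 (fun P => ?_) h3k fun x y z hxyz => ?_
  · obtain ⟨x, hx⟩ := r0 (P + s P + s (s P)) (by
      rw [map_add, map_add, hs]
      abel)
    obtain ⟨y, hy⟩ := r1 (P + A (A (s P)) + A (s (s P))) (by
      simp only [map_add, map_sub, map_neg, hc, hs, hA]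
      abel)
    obtain ⟨z, hz⟩ := r2 (P + A (s P) + A (A (s (s P)))) (by
      simp only [map_add, map_sub, map_neg, hc, hs, hA]
      abel)
    refine ⟨x, y, z, ?_⟩
    rw [hx, hy, hz, hA, hA]
    abel
  · obtain ⟨P0, hP0⟩ : ∃ P, P = g0 x := ⟨_, rfl⟩
    obtain ⟨P1, hP1⟩ : ∃ P, P = g1 y := ⟨_, rfl⟩
    obtain ⟨P2, hP2⟩ : ∃ P, P = g2 z := ⟨_, rfl⟩
    have t0 := s0 x
    have t1 := s1 y
    have t2 := s2 z
    rw [← hP0] at t0
    rw [← hP1] at t1
    rw [← hP2] at t2
    have k1 : P0 + P1 + P2 = 0 := by rw [hP0, hP1, hP2]; exact hxyz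
    have k2 : P0 + A P1 + A (A P2) = 0 := by
      have := congrArg s k1
      rwa [map_add, map_add, map_zero, t0, t1, t2] at this
    have k3 : P0 + A (A P1) + A P2 = 0 := by
      have := congrArg s k2
      rw [map_add, map_add, map_zero, t0, hc, hc, hc, t1, t2] at this
      rw [← this]
      simp only [hA, map_sub, map_neg]
      abel
    have m0 : (3 : ℕ) • P0 = 0 := by
      have e1 : (3 : ℕ) • P0 = (P0 + P1 + P2) + (P0 + A P1 + A (A P2)) + (P0 + A (A P1) + A P2) := by
        simp only [hA]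
        abel
      rw [e1, k1, k2, k3]
      abel
    have m1 : (3 : ℕ) • P1 = 0 := by
      have e1 : (3 : ℕ) • P1 = (P0 + P1 + P2) + A (A (P0 + A P1 + A (A P2))) +
          A (P0 + A (A P1) + A P2) := by
        simp only [map_add, map_sub, map_neg, hA]
        abel
      rw [e1, k1, k2, k3]
      simp only [map_zero]
      abel
    have m2 : (3 : ℕ) • P2 = 0 := by
      have e1 : (3 : ℕ) • P2 = (P0 + P1 + P2) + A (P0 + A P1 + A (A P2)) +
          A (A (P0 + A (A P1) + A P2)) := by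
        simp only [map_add, map_sub, map_neg, hA]
        abel
      rw [e1, k1, k2, k3]
      simp only [map_zero]
      abel
    refine ⟨hg0i _ ?_, hg1i _ ?_, hg2i _ ?_⟩
    · rw [map_nsmul, ← hP0, m0]
    · rw [map_nsmul, ← hP1, m1]
    · rw [map_nsmul, ← hP2, m2]

end Pool.Agent.H462.KX
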